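import Pool.Agent.H55.BQ.Targets

/-!
MP_bacf0e_co, second part: modules BT and WP (board bpq_modules).
-/

set_option autoImplicit false

open Finset Pool.Agent.H55.BP

namespace Pool.Agent.H67.BQ

open Pool.Agent.H55.BQ

theorem bt_aux {n : ℕ} (T : LT n) (g c : T.V) (hgc : g ≠ c) (l : List (Fin n)) :
    l.foldr T.r g = g ∨ T.dir g (l.foldr T.r g) = T.dir g c ∨
      T.dir c (l.foldr T.r g) = T.dir c g := by
  induction l with
  | nil => exact Or.inl rfl
  | cons j l ih =>
    rw [List.foldr_cons]
    generalize l.foldr T.r g = e at ih
    by_cases h1 : T.r j e = g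
    · exact Or.inl h1
    right
    by_cases h2 : e = g
    · subst h2
      by_cases h3 : T.dir e c = some j
      · left
        rw [T.dir_r, h3]
      · right
        have h4 : T.r j e ≠ c := by
          intro h
          apply h3
          rw [← h, T.dir_r]
        exact T.dir_step c e j hgc h4
    · have h3 := T.dir_step g e j h2 h1
      rcases ih with ih | ih | ih
      · exact absurd ih h2
      · left; rw [h3, ih]
      · by_cases h4 : T.dir g e = T.dir g c
        · left; rw [h3, h4]
        · right
          have h5 : e ≠ c := by
            rintro rfl; exact h4 rfl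
          have h6 : T.r j e ≠ c := by
            intro h
            apply h4
            rw [← h3, h]
          rw [T.dir_step c e j h5 h6, ih]

theorem pf_BT : T_BT := by
  intro n T g c e hgc hge hd
  obtain ⟨l, rfl⟩ := T.conn g e
  rcases bt_aux T g c hgc l with h | h | h
  · exact absurd h.symm hge
  · exact absurd h.symm hd
  · exact h

theorem pf_WP : T_WP := by
  intro n T _ L lam c g
  have h2 : ∀ a : ZMod 2, a + a = 0 := fun a => CharTwo.add_self_eq_zero a
  set f : T.V → ℕ → ZMod 2 := fun c' a => if c' = c then g a else 0 with hf
  have fp : ∀ a, f c a = g a := fun a => by simp [hf]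
  have fn : ∀ c' a, c' ≠ c → f c' a = 0 := fun c' a h => by simp [hf, h]
  set st : ZMod 2 := (match T.dir c (L.C 0) with
        | some s => g (2 * s.val)
        | none => 0) with hst
  have key : ∀ K ≤ L.K, ∑ k ∈ range K, (f (L.C k) (2 * (L.s k).val) +
      f (L.C (k + 1)) (2 * (L.s k).val)) + f (L.C K) (2 * lam.val + 1) =
      g (dval lam (T.dir c (L.C K))) + st := by
    intro K
    induction K with
    | zero =>
      intro _
      rw [Finset.sum_range_zero, zero_add, hst]
      by_cases hc : L.C 0 = c
      · rw [hc, fp, (T.dir_none c c).2 rfl]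
        simp [dval]
      · rw [fn _ _ hc]
        have h3 : T.dir c (L.C 0) ≠ none := fun h => hc ((T.dir_none _ _).1 h).symm
        cases hd : T.dir c (L.C 0) with
        | none => exact absurd hd h3
        | some s => simp only [dval]; rw [h2]
    | succ K ih =>
      intro hK
      have ih' := ih (by omega)
      rw [Finset.sum_range_succ]
      have hstep := L.step K (by omega)
      set s := L.s K with hs
      set S0 := ∑ k ∈ range K, (f (L.C k) (2 * (L.s k).val) + f (L.C (k + 1)) (2 * (L.s k).val))
        with hS0
      by_cases h3 : L.C K = c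
      · have h4 : T.dir c (L.C (K + 1)) = some s := by rw [hstep, h3, T.dir_r]
        have h5 : L.C (K + 1) ≠ c := by
          intro h
          rw [h, (T.dir_none c c).2 rfl] at h4
          exact absurd h4 (by simp)
        rw [h4, fn _ _ h5, fn _ _ h5]
        rw [h3, fp, (T.dir_none c c).2 rfl] at ih'
        rw [h3, fp]
        simp only [dval] at ih' ⊢
        have h6 : S0 = st := by
          have h7 : S0 + g (2 * lam.val + 1) + g (2 * lam.val + 1) =
              g (2 * lam.val + 1) + st + g (2 * lam.val + 1) := by rw [ih']
          rw [add_assoc, h2, add_zero] at h7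
          rw [h7, add_comm (g _) st, add_assoc, h2, add_zero]
        rw [h6]
        ring
      · by_cases h4 : L.C (K + 1) = c
        · have h5 : L.C K = T.r s c := by rw [← h4, hstep, T.rr]
          have h6 : T.dir c (L.C K) = some s := by rw [h5, T.dir_r]
          rw [h6, fn _ _ h3] at ih'
          rw [h4, fp, fp, fn _ _ h3, (T.dir_none c c).2 rfl]
          simp only [dval] at ih' ⊢
          rw [add_zero] at ih'
          rw [ih']
          have h7 : g (2 * s.val) + st + (0 + g (2 * s.val)) + g (2 * lam.val + 1) =
              (g (2 * s.val) + g (2 * s.val)) + (g (2 * lam.val + 1) + st) := by ring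
          rw [h7, h2, zero_add]
        · have h5 : T.dir c (L.C (K + 1)) = T.dir c (L.C K) := by
            rw [hstep] at h4 ⊢
            exact T.dir_step c _ s h3 h4
          rw [h5, fn _ _ h3, fn _ _ h4, fn _ _ h4]
          rw [fn _ _ h3] at ih'
          rw [← ih']
          ring
  exact key L.K le_rfl

end Pool.Agent.H67.BQ
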